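import Mathlib

set_option autoImplicit false

/-! Common zeros of fewer polynomials than variables. -/

namespace Pool.Agent.W145.CG

open MvPolynomial

section

variable {ρ S : Type} [CommRing S]

open Classical in
/-- Put the variables of `A` to zero. -/
noncomputable def kl (A : Set ρ) : MvPolynomial ρ S →ₐ[S] MvPolynomial ρ S :=
  aeval fun v => if v ∈ A then 0 else X v

lemma kl_insert (A : Set ρ) (v : ρ) (p : MvPolynomial ρ S) :
    kl (insert v A) p = kl {v} (kl A p) := by
  classical
  have h : (kl (insert v A) : MvPolynomial ρ S →ₐ[S] MvPolynomial ρ S) =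
      (kl {v}).comp (kl A) := by
    apply MvPolynomial.algHom_ext
    intro u
    simp only [kl, aeval_X, AlgHom.comp_apply, Set.mem_insert_iff]
    by_cases hu : u ∈ A
    · rw [if_pos (Or.inr hu), if_pos hu, map_zero]
    · by_cases huv : u = v
      · rw [if_pos (Or.inl huv), if_neg hu, aeval_X, if_pos (by rw [huv]; rfl)]
      · rw [if_neg (fun h => h.elim huv hu), if_neg hu, aeval_X,
          if_neg (fun h => huv (Set.mem_singleton_iff.mp h))]
  rw [h]
  rfl

noncomputable def pr (ρ S : Type) [CommRing S] (A : Set ρ) : Ideal (MvPolynomial ρ S) :=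
  RingHom.ker (kl A : MvPolynomial ρ S →ₐ[S] MvPolynomial ρ S)

lemma mem_pr {A : Set ρ} {p : MvPolynomial ρ S} : p ∈ pr ρ S A ↔ kl A p = 0 := RingHom.mem_ker

lemma pr_prime [IsDomain S] (A : Set ρ) : (pr ρ S A).IsPrime := RingHom.ker_isPrime _

lemma pr_insert [Nontrivial S] (A : Set ρ) (v : ρ) (hv : v ∉ A) :
    pr ρ S A < pr ρ S (insert v A) := by
  classical
  refine lt_of_le_of_ne ?_ ?_
  · intro p hp
    rw [mem_pr] at hp ⊢
    rw [kl_insert, hp, map_zero]
  · intro h
    have h1 : (X v : MvPolynomial ρ S) ∈ pr ρ S (insert v A) := by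
      rw [mem_pr, kl, aeval_X, if_pos (Set.mem_insert v A)]
    rw [← h, mem_pr, kl, aeval_X, if_neg hv] at h1
    exact MvPolynomial.X_ne_zero v h1

lemma card_le_height [IsDomain S] (A : Finset ρ) :
    (A.card : ℕ∞) ≤ (pr ρ S (A : Set ρ)).height := by
  classical
  induction A using Finset.induction_on with
  | empty => rw [Finset.card_empty, Nat.cast_zero]; exact bot_le
  | insert v A hv ih =>
    have hp := pr_prime (S := S) (A : Set ρ)
    have hp' := pr_prime (S := S) (insert v (A : Set ρ))
    have h := Ideal.height_add_one_le_of_lt_of_isPrime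
      (pr_insert (S := S) (A : Set ρ) v (fun h => hv (Finset.mem_coe.mp h)))
    rw [Finset.card_insert_of_notMem hv, Finset.coe_insert]
    refine le_trans ?_ h
    rw [Nat.cast_add, Nat.cast_one]
    exact add_le_add_left ih 1

lemma pr_univ (p : MvPolynomial ρ S) :
    p ∈ pr ρ S Set.univ ↔ MvPolynomial.eval (fun _ : ρ => (0 : S)) p = 0 := by
  classical
  rw [mem_pr]
  have h : kl (Set.univ : Set ρ) p = C (MvPolynomial.eval (fun _ : ρ => (0 : S)) p) := by
    have h2 : (kl (Set.univ : Set ρ) : MvPolynomial ρ S →ₐ[S] MvPolynomial ρ S) =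
        (Algebra.ofId S (MvPolynomial ρ S)).comp (aeval fun _ : ρ => (0 : S)) := by
      apply MvPolynomial.algHom_ext
      intro u
      rw [kl, aeval_X, if_pos (Set.mem_univ u), AlgHom.comp_apply, aeval_X, map_zero]
    rw [h2, AlgHom.comp_apply, Algebra.ofId_apply, MvPolynomial.algebraMap_eq,
      MvPolynomial.aeval_eq_eval]
  rw [h]
  constructor
  · intro h0
    exact MvPolynomial.C_injective ρ S (by rw [h0, map_zero])
  · intro h0
    rw [h0, map_zero]

end

theorem common_zero {k : Type} [Field k] [IsAlgClosed k] {ρ J : Type} [Fintype ρ]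
    (F : J → MvPolynomial ρ k) (s : Finset J) (h0 : ∀ j ∈ s, eval (fun _ : ρ => (0 : k)) (F j) = 0)
    (hc : s.card < Fintype.card ρ) :
    ∃ v : ρ → k, v ≠ 0 ∧ ∀ j ∈ s, eval v (F j) = 0 := by
  classical
  by_contra hcon
  push Not at hcon
  set I : Ideal (MvPolynomial ρ k) := Ideal.span ((s.image F : Finset _) : Set (MvPolynomial ρ k))
    with hI
  set P : Ideal (MvPolynomial ρ k) := pr ρ k Set.univ with hP
  have hPp : P.IsPrime := pr_prime _
  have hIP : I ≤ P := by
    rw [hI, Ideal.span_le]
    intro p hp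
    rw [Finset.mem_coe, Finset.mem_image] at hp
    obtain ⟨j, hj, rfl⟩ := hp
    exact (pr_univ _).mpr (h0 j hj)
  have hPrad : P ≤ I.radical := by
    rw [← MvPolynomial.vanishingIdeal_zeroLocus_eq_radical (K := k)]
    intro p hp x hx
    have hx0 : x = 0 := by
      by_contra hne
      obtain ⟨j, hj, h⟩ := hcon x hne
      apply h
      have := hx (F j) (Ideal.subset_span (Finset.mem_coe.mpr (Finset.mem_image_of_mem F hj)))
      rwa [MvPolynomial.aeval_eq_eval] at this
    rw [hx0, MvPolynomial.aeval_eq_eval]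
    exact (pr_univ p).mp hp
  have hmin : P ∈ I.minimalPrimes := by
    refine ⟨⟨hPp, hIP⟩, ?_⟩
    rintro Q ⟨hQ, hIQ⟩ _
    exact hPrad.trans ((Ideal.IsPrime.radical_le_iff hQ).mpr hIQ)
  have h1 : P.height ≤ (s.image F).card :=
    Ideal.height_le_card_of_mem_minimalPrimes_span_finset hmin
  have h2 := card_le_height (S := k) (Finset.univ : Finset ρ)
  rw [Finset.coe_univ, Finset.card_univ] at h2
  have h3 : (Fintype.card ρ : ℕ∞) ≤ (s.card : ℕ∞) :=
    (h2.trans h1).trans (by exact_mod_cast Finset.card_image_le)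
  exact absurd hc (not_lt.mpr (by exact_mod_cast h3))

end Pool.Agent.W145.CG
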