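import Pool.Agent.W145.CG.Main

set_option autoImplicit false

/-! The component of degree one of a weighted complete intersection. -/

namespace Pool.Agent.W145.CG

open MvPolynomial

variable {k : Type} [Field k] {N c : ℕ} {a : Fin N → ℕ} {d : Fin c → ℕ}

theorem weight_zero (ha : ∀ i, 0 < a i) {e : Fin N →₀ ℕ} (h : Finsupp.weight a e = 0) : e = 0 := by
  rw [weight_eq] at h
  ext i
  have h1 := (Finset.sum_eq_zero_iff.mp h) i (Finset.mem_univ i)
  rcases Nat.mul_eq_zero.mp h1 with h2 | h2
  · simpa using h2
  · have := ha i; omega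

theorem weight_one (ha : ∀ i, 0 < a i) {e : Fin N →₀ ℕ} (h : Finsupp.weight a e = 1) :
    ∃ i, a i = 1 ∧ e = Finsupp.single i 1 := by
  have hw := h
  rw [weight_eq] at h
  have hne : ∃ i, e i ≠ 0 := by
    by_contra hall
    push Not at hall
    rw [Finset.sum_eq_zero (fun i _ => by rw [hall i, zero_mul])] at h
    omega
  obtain ⟨i, hi⟩ := hne
  have hle : Finsupp.single i 1 ≤ e := by
    rw [Finsupp.single_le_iff]
    omega
  have h1 : Finsupp.single i 1 + (e - Finsupp.single i 1) = e := add_tsub_cancel_of_le hle
  have h2 : Finsupp.weight a (Finsupp.single i 1) + Finsupp.weight a (e - Finsupp.single i 1) =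
      1 := by
    rw [← map_add, h1, hw]
  have h3 : Finsupp.weight a (Finsupp.single i 1) = a i := by
    rw [Finsupp.weight_single]
    simp
  have h4 := ha i
  have h5 : Finsupp.weight a (e - Finsupp.single i 1) = 0 := by omega
  refine ⟨i, by omega, ?_⟩
  rw [← h1, weight_zero ha h5, add_zero]

theorem mem_span_of_mem (ha : ∀ i, 0 < a i) (hd : ∀ j, 0 < d j)
    {f : Fin c → MvPolynomial (Fin N) k} (hf : ∀ j, IsWeightedHomogeneous a (f j) (d j))
    {l : MvPolynomial (Fin N) k} (hl : IsWeightedHomogeneous a l 1)
    (hI : l ∈ Ideal.span (Set.range f)) :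
    l ∈ Submodule.span k (Set.range fun j : {j // d j = 1} => f j.1) := by
  classical
  obtain ⟨g, hg⟩ := Ideal.mem_span_range_iff_exists_fun.mp hI
  have key : l = ∑ j, if d j = 1 then coeff 0 (g j) • f j else 0 := by
    ext e
    by_cases he : Finsupp.weight a e = 1
    · rw [← hg, coeff_sum, coeff_sum]
      apply Finset.sum_congr rfl
      intro j _
      rw [coeff_mul]
      by_cases hj : d j = 1
      · rw [if_pos hj, coeff_smul, smul_eq_mul]
        rw [Finset.sum_eq_single (0, e)]
        · rintro ⟨x, y⟩ hxy hne
          rw [Finset.HasAntidiagonal.mem_antidiagonal] at hxy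
          by_contra hcon
          have hy : coeff y (f j) ≠ 0 := fun h => hcon (by simp only [h, mul_zero])
          have h1 := hf j hy
          have h2 : Finsupp.weight a x + Finsupp.weight a y = 1 := by
            rw [← map_add]
            simp only at hxy
            rw [hxy, he]
          have h3 : x = 0 := weight_zero ha (by omega)
          apply hne
          simp only at hxy
          rw [h3, zero_add] at hxy
          rw [h3, hxy]
        · intro h
          exact absurd (by simp) h
      · rw [if_neg hj, coeff_zero]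
        apply Finset.sum_eq_zero
        rintro ⟨x, y⟩ hxy
        rw [Finset.HasAntidiagonal.mem_antidiagonal] at hxy
        by_contra hcon
        have hy : coeff y (f j) ≠ 0 := fun h => hcon (by simp only [h, mul_zero])
        have h1 := hf j hy
        have h2 : Finsupp.weight a x + Finsupp.weight a y = 1 := by
          rw [← map_add]
          simp only at hxy
          rw [hxy, he]
        have h3 := hd j
        omega
    · rw [hl.coeff_eq_zero e he, coeff_sum]
      symm
      apply Finset.sum_eq_zero
      intro j _
      by_cases hj : d j = 1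
      · rw [if_pos hj, coeff_smul, (hf j).coeff_eq_zero e (by rw [hj]; exact he), smul_zero]
      · rw [if_neg hj, coeff_zero]
  rw [key]
  apply Submodule.sum_mem
  intro j _
  by_cases hj : d j = 1
  · rw [if_pos hj]
    exact Submodule.smul_mem _ _ (Submodule.subset_span ⟨⟨j, hj⟩, rfl⟩)
  · rw [if_neg hj]
    exact Submodule.zero_mem _

/-- the component of degree `1` of `k[x] / (f)` -/
noncomputable def S1 (a : Fin N → ℕ) (f : Fin c → MvPolynomial (Fin N) k) :
    Submodule k (MvPolynomial (Fin N) k ⧸ Ideal.span (Set.range f)) :=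
  (weightedHomogeneousSubmodule k a 1).map
    (Ideal.Quotient.mkₐ k (Ideal.span (Set.range f))).toLinearMap

theorem finrank_S1 (ha : ∀ i, 0 < a i) (hd : ∀ j, 0 < d j)
    {f : Fin c → MvPolynomial (Fin N) k} (hf : ∀ j, IsWeightedHomogeneous a (f j) (d j)) :
    (Finset.univ.filter (fun i => a i = 1)).card ≤
      Module.finrank k (S1 a f) + (Finset.univ.filter (fun j => d j = 1)).card := by
  classical
  let A := {i : Fin N // a i = 1}
  let J := {j : Fin c // d j = 1}
  let L : (A → k) →ₗ[k] MvPolynomial (Fin N) k :=
    Fintype.linearCombination k (fun i : A => (X i.1 : MvPolynomial (Fin N) k))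
  have hL : ∀ v, L v = ∑ i : A, v i • (X i.1 : MvPolynomial (Fin N) k) := by
    intro v
    exact Fintype.linearCombination_apply k _ v
  have hLinj : Function.Injective L := by
    rw [injective_iff_map_eq_zero]
    intro v hv
    funext i
    have h1 := congrArg (coeff (Finsupp.single i.1 1)) hv
    rw [hL, coeff_sum, coeff_zero] at h1
    simp only [coeff_smul, smul_eq_mul] at h1
    rw [Finset.sum_eq_single i] at h1
    · rw [coeff_X] at h1
      simpa using h1
    · intro b _ hb
      rw [coeff_X', if_neg, mul_zero]
      intro h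
      have := (Finsupp.single_left_injective (one_ne_zero : (1 : ℕ) ≠ 0)) h
      exact hb (Subtype.ext this)
    · intro h
      exact absurd (Finset.mem_univ _) h
  have hLhom : ∀ v, IsWeightedHomogeneous a (L v) 1 := by
    intro v
    rw [hL]
    apply IsWeightedHomogeneous.sum
    intro i _
    rw [← mem_weightedHomogeneousSubmodule]
    apply Submodule.smul_mem
    rw [mem_weightedHomogeneousSubmodule]
    have := isWeightedHomogeneous_X k a i.1
    rw [i.2] at this
    exact this
  set I := Ideal.span (Set.range f) with hI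
  let φ : (A → k) →ₗ[k] (MvPolynomial (Fin N) k ⧸ I) := (Ideal.Quotient.mkₐ k I).toLinearMap ∘ₗ L
  have hrange : LinearMap.range φ = S1 a f := by
    apply le_antisymm
    · rintro _ ⟨v, rfl⟩
      exact Submodule.mem_map_of_mem (hLhom v)
    · rintro _ ⟨p, hp, rfl⟩
      have hp' : p ∈ LinearMap.range L := by
        rw [p.as_sum]
        apply Submodule.sum_mem
        intro e he
        obtain ⟨i, hi, rfl⟩ := weight_one ha (hp (mem_support_iff.mp he))
        refine ⟨Pi.single (⟨i, hi⟩ : A) (coeff (Finsupp.single i 1) p), ?_⟩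
        rw [hL, Finset.sum_eq_single (⟨i, hi⟩ : A)]
        · rw [Pi.single_eq_same, X, smul_monomial, smul_eq_mul, mul_one]
        · intro b _ hb
          rw [Pi.single_eq_of_ne hb, zero_smul]
        · intro h
          exact absurd (Finset.mem_univ _) h
      obtain ⟨v, rfl⟩ := hp'
      exact ⟨v, rfl⟩
  have h1 : Module.finrank k (S1 a f) + Module.finrank k (LinearMap.ker φ) = Fintype.card A := by
    rw [← hrange, LinearMap.finrank_range_add_finrank_ker, Module.finrank_fintype_fun_eq_card]
  have hker : (LinearMap.ker φ).map L ≤ Submodule.span k (Set.range fun j : J => f j.1) := by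
    rintro _ ⟨v, hv, rfl⟩
    apply mem_span_of_mem ha hd hf (hLhom v)
    have h2 : φ v = 0 := hv
    exact Ideal.Quotient.eq_zero_iff_mem.mp h2
  have h2 : Module.finrank k (LinearMap.ker φ) ≤ Fintype.card J := by
    rw [LinearEquiv.finrank_eq (Submodule.equivMapOfInjective L hLinj (LinearMap.ker φ))]
    have hfin : Module.Finite k (Submodule.span k (Set.range fun j : J => f j.1)) :=
      FiniteDimensional.span_of_finite k (Set.finite_range _)
    exact (Submodule.finrank_mono hker).trans (finrank_range_le_card _)
  have c1 : Fintype.card A = (Finset.univ.filter (fun i => a i = 1)).card :=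
    Fintype.card_subtype _
  have c2 : Fintype.card J = (Finset.univ.filter (fun j => d j = 1)).card :=
    Fintype.card_subtype _
  rw [← c1, ← c2]
  omega

theorem main [IsAlgClosed k] (ha : ∀ i, 0 < a i) (hd : ∀ j, 0 < d j)
    {f : Fin c → MvPolynomial (Fin N) k} (hf : ∀ j, IsWeightedHomogeneous a (f j) (d j))
    (hinv : ∀ v : Fin N → k, v ≠ 0 → (∀ j, eval v (f j) = 0) →
      ∀ g : ℕ, (∀ i, v i ≠ 0 → g ∣ a i) → g = 1) :
    ((N : ℤ) - c) - (∑ j, (d j : ℤ) - ∑ i, (a i : ℤ)) ≤ 2 * Module.finrank k (S1 a f) := by
  have h1 := numeric a d ha hd (fun m hm => count_le hd hf hinv m hm)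
  have h2 := finrank_S1 ha hd hf
  have h3 : ((Finset.univ.filter (fun i => a i = 1)).card : ℤ) ≤
      Module.finrank k (S1 a f) + (Finset.univ.filter (fun j => d j = 1)).card := by
    exact_mod_cast h2
  linarith

end Pool.Agent.W145.CG
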