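import Pool.Agent.W145.CG.Krull

set_option autoImplicit false

/-! Sections of degree one of weighted complete intersections. -/

namespace Pool.Agent.W145.CG

open MvPolynomial

theorem eval_zero_of {k : Type} [Field k] {N : ℕ} {a : Fin N → ℕ} {f : MvPolynomial (Fin N) k}
    {d : ℕ} (hf : IsWeightedHomogeneous a f d) (v : Fin N → k)
    (h : ∀ e : Fin N →₀ ℕ, Finsupp.weight a e = d → ∃ i, e i ≠ 0 ∧ v i = 0) :
    eval v f = 0 := by
  rw [eval_eq]
  apply Finset.sum_eq_zero
  intro e he
  obtain ⟨i, hi, hv⟩ := h e (hf (mem_support_iff.mp he))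
  have : ∏ i ∈ e.support, v i ^ e i = 0 :=
    Finset.prod_eq_zero (Finsupp.mem_support_iff.mpr hi) (by rw [hv, zero_pow hi])
  rw [this, mul_zero]

theorem weight_eq {N : ℕ} (a : Fin N → ℕ) (e : Fin N →₀ ℕ) :
    Finsupp.weight a e = ∑ i, e i * a i := by
  rw [Finsupp.weight_apply, Finsupp.sum_fintype]
  · simp
  · simp

/-- the divisibility condition -/
theorem count_le {k : Type} [Field k] [IsAlgClosed k] {N c : ℕ} {a : Fin N → ℕ} {d : Fin c → ℕ}
    (hd : ∀ j, 0 < d j) {f : Fin c → MvPolynomial (Fin N) k}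
    (hf : ∀ j, IsWeightedHomogeneous a (f j) (d j))
    (hinv : ∀ v : Fin N → k, v ≠ 0 → (∀ j, eval v (f j) = 0) →
      ∀ g : ℕ, (∀ i, v i ≠ 0 → g ∣ a i) → g = 1) (m : ℕ) (hm : 2 ≤ m) :
    (Finset.univ.filter (fun i => m ∣ a i)).card ≤
      (Finset.univ.filter (fun j => m ∣ d j)).card := by
  classical
  by_contra hcon
  push Not at hcon
  let A := {i : Fin N // m ∣ a i}
  let r : MvPolynomial (Fin N) k →ₐ[k] MvPolynomial A k :=
    aeval fun i => if h : m ∣ a i then X (⟨i, h⟩ : A) else 0
  have hr : ∀ (v : A → k) (p : MvPolynomial (Fin N) k),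
      eval v (r p) = eval (fun i => if h : m ∣ a i then v ⟨i, h⟩ else 0) p := by
    intro v p
    have h1 : (eval v).comp (r : MvPolynomial (Fin N) k →+* MvPolynomial A k) =
        eval (fun i => if h : m ∣ a i then v ⟨i, h⟩ else 0) := by
      apply MvPolynomial.ringHom_ext
      · intro x
        simp [r]
      · intro i
        simp only [r, RingHom.comp_apply, RingHom.coe_coe, aeval_X, eval_X]
        split_ifs with h
        · rw [eval_X]
        · rw [map_zero]
    exact congrArg (fun φ => φ p) h1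
  have hcA : Fintype.card A = (Finset.univ.filter (fun i => m ∣ a i)).card :=
    Fintype.card_subtype _
  obtain ⟨v, hv0, hv⟩ := common_zero (fun j => r (f j))
    (Finset.univ.filter (fun j => m ∣ d j)) (by
      intro j _
      rw [hr]
      apply eval_zero_of (hf j)
      intro e he
      rw [weight_eq] at he
      have hne : ∃ i, e i * a i ≠ 0 := by
        by_contra hall
        push Not at hall
        rw [Finset.sum_eq_zero (fun i _ => hall i)] at he
        have := hd j
        omega
      obtain ⟨i, hi⟩ := hne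
      refine ⟨i, fun h => hi (by rw [h, zero_mul]), ?_⟩
      split_ifs <;> rfl) (by rw [hcA]; exact hcon)
  set v' : Fin N → k := fun i => if h : m ∣ a i then v ⟨i, h⟩ else 0 with hv'
  have h1 : v' ≠ 0 := by
    intro h
    apply hv0
    funext ⟨i, hi⟩
    have := congrFun h i
    rw [hv'] at this
    simp only [dif_pos hi, Pi.zero_apply] at this
    exact this
  have h2 : ∀ j, eval v' (f j) = 0 := by
    intro j
    by_cases hj : m ∣ d j
    · have := hv j (Finset.mem_filter.mpr ⟨Finset.mem_univ _, hj⟩)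
      rw [hr] at this
      exact this
    · apply eval_zero_of (hf j)
      intro e he
      rw [weight_eq] at he
      by_contra hall
      push Not at hall
      apply hj
      rw [← he]
      apply Finset.dvd_sum
      intro i _
      by_cases hi : m ∣ a i
      · exact Dvd.dvd.mul_left hi _
      · have h3 : e i = 0 := by
          by_contra h4
          exact hall i h4 (by rw [hv']; simp only [dif_neg hi])
        rw [h3, zero_mul]
        exact dvd_zero _
  have h3 := hinv v' h1 h2 m (by
    intro i hi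
    by_contra h4
    exact hi (by rw [hv']; simp only [dif_neg h4]))
  omega

/-- `g m = φ m - 2 μ m` -/
def gg (m : ℕ) : ℤ := (Nat.totient m : ℤ) - 2 * ArithmeticFunction.moebius m

theorem gg_nonneg (m : ℕ) (hm : 2 ≤ m) : 0 ≤ gg m := by
  unfold gg
  rcases Nat.lt_or_ge 2 m with h | h
  · have h1 : 2 ≤ Nat.totient m := by
      have h2 := Nat.totient_even h
      have h3 := Nat.totient_pos.mpr (by omega : 0 < m)
      obtain ⟨r, hr⟩ := h2
      omega
    have h4 := ArithmeticFunction.abs_moebius_le_one (n := m)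
    have h5 := abs_le.mp h4
    have h6 : (2 : ℤ) ≤ (Nat.totient m : ℤ) := by exact_mod_cast h1
    linarith [h5.2]
  · have : m = 2 := by omega
    subst this
    rw [ArithmeticFunction.moebius_apply_prime Nat.prime_two]
    simp

theorem gg_sum (x B : ℕ) (hx : 0 < x) (hB : x ≤ B) :
    ∑ m ∈ Finset.Icc 1 B, (if m ∣ x then gg m else 0) = (x : ℤ) - 2 * (if x = 1 then 1 else 0) := by
  rw [← Finset.sum_filter]
  have h1 : (Finset.Icc 1 B).filter (fun m => m ∣ x) = x.divisors := by
    ext m
    rw [Finset.mem_filter, Finset.mem_Icc, Nat.mem_divisors]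
    constructor
    · rintro ⟨_, h⟩; exact ⟨h, hx.ne'⟩
    · rintro ⟨h, _⟩
      exact ⟨⟨Nat.pos_of_dvd_of_pos h hx, (Nat.le_of_dvd hx h).trans hB⟩, h⟩
  rw [h1]
  unfold gg
  rw [Finset.sum_sub_distrib, ← Finset.mul_sum]
  have h2 : ∑ m ∈ x.divisors, (Nat.totient m : ℤ) = x := by
    exact_mod_cast Nat.sum_totient x
  have h3 : ∑ m ∈ x.divisors, ArithmeticFunction.moebius m = if x = 1 then (1 : ℤ) else 0 := by
    have := ArithmeticFunction.coe_mul_zeta_apply (f := ArithmeticFunction.moebius) (x := x)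
    rw [ArithmeticFunction.moebius_mul_coe_zeta, ArithmeticFunction.one_apply] at this
    exact this.symm
  rw [h2, h3]

theorem numeric {N c : ℕ} (a : Fin N → ℕ) (d : Fin c → ℕ) (ha : ∀ i, 0 < a i)
    (hd : ∀ j, 0 < d j)
    (h : ∀ m, 2 ≤ m → (Finset.univ.filter (fun i => m ∣ a i)).card ≤
      (Finset.univ.filter (fun j => m ∣ d j)).card) :
    (N : ℤ) - c + ∑ i, (a i : ℤ) - ∑ j, (d j : ℤ) ≤
      2 * (((Finset.univ.filter (fun i => a i = 1)).card : ℤ) -
        (Finset.univ.filter (fun j => d j = 1)).card) := by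
  obtain ⟨B, hB1, hBa, hBd⟩ : ∃ B : ℕ, 1 ≤ B ∧ (∀ i, a i ≤ B) ∧ (∀ j, d j ≤ B) := by
    refine ⟨1 + ∑ i, a i + ∑ j, d j, by omega, fun i => ?_, fun j => ?_⟩
    · have := Finset.single_le_sum (f := a) (fun _ _ => Nat.zero_le _) (Finset.mem_univ i)
      omega
    · have := Finset.single_le_sum (f := d) (fun _ _ => Nat.zero_le _) (Finset.mem_univ j)
      omega
  have key : ∀ (M : ℕ) (b : Fin M → ℕ), (∀ i, 0 < b i) → (∀ i, b i ≤ B) →
      ∑ i, (b i : ℤ) - 2 * ((Finset.univ.filter (fun i => b i = 1)).card : ℤ) =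
        ∑ m ∈ Finset.Icc 1 B, gg m * ((Finset.univ.filter (fun i => m ∣ b i)).card : ℤ) := by
    intro M b hb hbB
    have h1 : ∑ i, (b i : ℤ) - 2 * ((Finset.univ.filter (fun i => b i = 1)).card : ℤ) =
        ∑ i, ((b i : ℤ) - 2 * (if b i = 1 then 1 else 0)) := by
      rw [Finset.sum_sub_distrib, ← Finset.mul_sum, Finset.sum_boole]
    rw [h1, Finset.sum_congr rfl (fun i _ => (gg_sum (b i) B (hb i) (hbB i)).symm),
      Finset.sum_comm]
    apply Finset.sum_congr rfl
    intro m _
    rw [← Finset.sum_filter, Finset.sum_const, nsmul_eq_mul, mul_comm]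
  have k1 := key N a ha hBa
  have k2 := key c d hd hBd
  have h1 : Finset.Icc 1 B = insert 1 (Finset.Icc 2 B) := by
    ext m
    simp only [Finset.mem_Icc, Finset.mem_insert]
    omega
  have h2 : (1 : ℕ) ∉ Finset.Icc 2 B := by simp
  rw [h1, Finset.sum_insert h2] at k1 k2
  have g1 : gg 1 = -1 := by unfold gg; simp
  have h3 : ∑ m ∈ Finset.Icc 2 B, gg m * ((Finset.univ.filter (fun i => m ∣ a i)).card : ℤ) ≤
      ∑ m ∈ Finset.Icc 2 B, gg m * ((Finset.univ.filter (fun j => m ∣ d j)).card : ℤ) := by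
    apply Finset.sum_le_sum
    intro m hm
    rw [Finset.mem_Icc] at hm
    exact mul_le_mul_of_nonneg_left (by exact_mod_cast h m hm.1) (gg_nonneg m hm.1)
  have c1 : (Finset.univ.filter (fun i => 1 ∣ a i)).card = N := by simp
  have c2 : (Finset.univ.filter (fun j => 1 ∣ d j)).card = c := by simp
  rw [g1, c1] at k1
  rw [g1, c2] at k2
  linarith

end Pool.Agent.W145.CG
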